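import Mathlib

set_option autoImplicit false

/-!
# A non-coordinate preimage of `x₁` under an injective polynomial endomorphism

For every field `K` of characteristic zero and every `n ≥ 3` we give an injective `K`-algebra
endomorphism `φ` of `K[x₁, …, xₙ]` and a polynomial `p` with `φ(p) = x₁` which is not a
coordinate polynomial.  With `(x, y, z) = (x₁, x₂, x₃)`:

* `p = x z + y² + y`,
* `φ : x ↦ A = x - y² - y`, `y ↦ B = y + A z`, `z ↦ C = 1 - z (2 y + 1) - A z²`, and `φ` fixes the
  other variables.

Then `φ(p) = A C + B² + B = x`; the gradient of `p` vanishes at `(0, -1/2, 0, …)`, so `p` is not a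
coordinate.
-/

namespace Pool.Agent.Results.MP_a59f64_al.NonCoordinatePreimage

open MvPolynomial

universe u

/-- `p` is a coordinate polynomial of `K[x₁, …, xₙ]`: it is the image of the first variable under
some `K`-algebra automorphism. -/
def IsCoordinate {K : Type u} [Field K] {n : ℕ} (hn : 0 < n) (p : MvPolynomial (Fin n) K) : Prop :=
  ∃ α : MvPolynomial (Fin n) K ≃ₐ[K] MvPolynomial (Fin n) K, α (X ⟨0, hn⟩) = p

section
variable (K : Type u) [Field K] (m : ℕ)

noncomputable def A : MvPolynomial (Fin (m + 3)) K := X 0 - X 1 ^ 2 - X 1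
noncomputable def B : MvPolynomial (Fin (m + 3)) K := X 1 + A K m * X 2
noncomputable def C' : MvPolynomial (Fin (m + 3)) K := 1 - X 2 * (2 * X 1 + 1) - A K m * X 2 ^ 2

/-- the images of the variables -/
noncomputable def F : Fin (m + 3) → MvPolynomial (Fin (m + 3)) K :=
  fun i => if i = 0 then A K m else if i = 1 then B K m else if i = 2 then C' K m else X i

theorem ne10 : (1 : Fin (m + 3)) ≠ 0 := by simp
theorem ne20 : (2 : Fin (m + 3)) ≠ 0 := by
  intro h; have := congrArg Fin.val h; simp [Nat.mod_eq_of_lt] at this
theorem ne21 : (2 : Fin (m + 3)) ≠ 1 := by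
  intro h; have := congrArg Fin.val h; simp [Nat.mod_eq_of_lt] at this

theorem F0 : F K m 0 = A K m := by simp [F]
theorem F1 : F K m 1 = B K m := by simp [F]
theorem F2 : F K m 2 = C' K m := by simp [F, ne20, ne21]
theorem Fi (i : Fin (m + 3)) (h0 : i ≠ 0) (h1 : i ≠ 1) (h2 : i ≠ 2) : F K m i = X i := by
  simp [F, h0, h1, h2]

noncomputable def φ : MvPolynomial (Fin (m + 3)) K →ₐ[K] MvPolynomial (Fin (m + 3)) K :=
  aeval (F K m)

noncomputable def p : MvPolynomial (Fin (m + 3)) K := X 0 * X 2 + X 1 ^ 2 + X 1

theorem φ_p : φ K m (p K m) = X 0 := by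
  simp only [φ, p, map_add, map_mul, map_pow, aeval_X, F0, F1, F2]
  simp only [B, C', A]
  ring

theorem eval_φ (v : Fin (m + 3) → K) (f : MvPolynomial (Fin (m + 3)) K) :
    eval v (φ K m f) = eval (fun i => eval v (F K m i)) f := by
  induction f using MvPolynomial.induction_on with
  | C a => simp [φ]
  | add p q hp hq => simp only [map_add, hp, hq]
  | mul_X p i hp => rw [map_mul, map_mul, hp, map_mul, eval_X]; simp [φ]

variable [CharZero K]

theorem φ_injective : Function.Injective (φ K m) := by
  rw [injective_iff_map_eq_zero]
  intro f hf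
  have hv : ∀ v : Fin (m + 3) → K, eval (fun i => eval v (F K m i)) f = 0 := by
    intro v; rw [← eval_φ, hf, map_zero]
  have key : ∀ w : Fin (m + 3) → K, w 0 ≠ 0 → eval w f = 0 := by
    intro w hw
    let g : Polynomial K :=
      aeval (Function.update (fun i => Polynomial.C (w i)) 2 Polynomial.X) f
    have hg : ∀ t, g.eval t = eval (Function.update w 2 t) f := by
      intro t
      have : ∀ f : MvPolynomial (Fin (m + 3)) K, (aeval (R := K)
          (Function.update (fun i => Polynomial.C (w i)) 2 Polynomial.X) f).eval t =
          eval (Function.update w 2 t) f := by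
        intro f
        induction f using MvPolynomial.induction_on with
        | C a => simp
        | add p q hp hq => simp only [map_add, Polynomial.eval_add, hp, hq]
        | mul_X p i hp =>
          rw [map_mul, Polynomial.eval_mul, hp, map_mul, eval_X, aeval_X]
          congr 1
          by_cases hi : i = 2
          · subst hi; simp
          · simp [Function.update_of_ne hi]
      exact this f
    have hroot : ∀ k : ℕ,
        g.IsRoot (1 - (w 1 ^ 2 + w 1 - ((k : K) ^ 2 + k)) / w 0) := by
      intro k
      rw [Polynomial.IsRoot, hg]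
      have h := hv (fun i => if i = 0 then w 0 + (k : K) ^ 2 + k else if i = 1 then (k : K)
        else if i = 2 then (w 1 - k) / w 0 else w i)
      rw [← h]
      congr 2
      funext i
      by_cases h2 : i = 2
      · subst h2
        simp only [Function.update_self, F2, C', A, map_sub, map_mul, map_add, map_one, map_pow,
          eval_X, map_ofNat, ne10, ne20, ne21, if_true, if_false]
        field_simp
        ring
      · rw [Function.update_of_ne h2]
        by_cases h1 : i = 1
        · subst h1
          simp only [F1, B, A, map_sub, map_mul, map_add, map_pow, eval_X, ne10, ne20, ne21,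
            if_true, if_false]
          field_simp
          ring
        · by_cases h0 : i = 0
          · subst h0
            simp only [F0, A, map_sub, map_pow, eval_X, ne10, if_true, if_false]
            ring
          · rw [Fi K m i h0 h1 h2, eval_X]
            simp [h0, h1, h2]
    have hg0 : g = 0 := by
      apply Polynomial.eq_zero_of_infinite_isRoot
      refine Set.infinite_of_injective_forall_mem
        (f := fun k : ℕ => 1 - (w 1 ^ 2 + w 1 - ((k : K) ^ 2 + k)) / w 0) ?_ hroot
      intro k l hkl
      simp only at hkl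
      have h1 : ((k : K) ^ 2 + k) = ((l : K) ^ 2 + l) := by
        field_simp at hkl
        linear_combination hkl
      have h2 : k ^ 2 + k = l ^ 2 + l := by exact_mod_cast h1
      rcases lt_trichotomy k l with h | h | h
      · nlinarith
      · exact h
      · nlinarith
    have := hg (w 2)
    rw [hg0, Polynomial.eval_zero, Function.update_eq_self] at this
    exact this.symm
  have hX : X 0 * f = 0 := by
    apply MvPolynomial.funext
    intro w
    rw [map_mul, eval_X, map_zero]
    by_cases hw : w 0 = 0
    · rw [hw, zero_mul]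
    · rw [key w hw, mul_zero]
  exact (mul_eq_zero.mp hX).resolve_left (X_ne_zero 0)

theorem not_coordinate : ¬ IsCoordinate (Nat.succ_pos (m + 2)) (p K m) := by
  rintro ⟨α, hα⟩
  have hα' : α (X 0) = p K m := hα
  -- the derivation `α ∂₀ α⁻¹`
  let D : MvPolynomial (Fin (m + 3)) K → MvPolynomial (Fin (m + 3)) K :=
    fun f => α (pderiv 0 (α.symm f))
  have Dadd : ∀ f g, D (f + g) = D f + D g := by intro f g; simp [D]
  have Dmul : ∀ f g, D (f * g) = f * D g + g * D f := by
    intro f g
    simp only [D, map_mul, pderiv_mul, map_add, AlgEquiv.apply_symm_apply]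
    ring
  have D1 : D (p K m) = 1 := by
    simp only [D]
    rw [← hα', AlgEquiv.symm_apply_apply, pderiv_X_self, map_one]
  have D2 : D (p K m) = X 0 * D (X 2) + X 2 * D (X 0) + (2 * X 1 + 1) * D (X 1) := by
    rw [p, Dadd, Dadd, pow_two, Dmul, Dmul]
    ring
  have h := congrArg (eval (fun i : Fin (m + 3) => if i = 1 then (-1/2 : K) else 0)) D2
  rw [D1] at h
  simp only [map_add, map_mul, map_one, eval_X, map_ofNat, (ne10 m).symm, ne21, if_true,
    if_false, zero_mul, zero_add] at h
  rw [show (2 * (-1 / 2 : K) + 1) = 0 by norm_num, zero_mul] at h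
  exact one_ne_zero h

end

/-- For every field `K` of characteristic zero and every `n ≥ 3` there are an injective
endomorphism `φ` of `K[x₁, …, xₙ]` and a polynomial `p` with `φ(p) = x₁` such that `p` is not a
coordinate polynomial. -/
theorem result (K : Type u) [Field K] [CharZero K] (n : ℕ) (hn : 3 ≤ n) :
    ∃ (φ : MvPolynomial (Fin n) K →ₐ[K] MvPolynomial (Fin n) K) (p : MvPolynomial (Fin n) K),
      Function.Injective φ ∧ φ p = X ⟨0, by omega⟩ ∧
      ¬ IsCoordinate (show 0 < n by omega) p := by
  obtain ⟨m, rfl⟩ : ∃ m, n = m + 3 := ⟨n - 3, by omega⟩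
  exact ⟨φ K m, p K m, φ_injective K m, φ_p K m, not_coordinate K m⟩

end Pool.Agent.Results.MP_a59f64_al.NonCoordinatePreimage
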